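import Mathlib

set_option autoImplicit false

open MeasureTheory Set Topology

namespace Pool.Agent.Results.MP_d698c5_an.PlaneNoHaar

/-- There is a rational-linear map from the reals to the rationals sending `1` to `1`. -/
lemma exists_ratLinear : ∃ f : ℝ →ₗ[ℚ] ℚ, f 1 = 1 := by
  have hinj : LinearMap.ker (Algebra.linearMap ℚ ℝ) = ⊥ := by
    rw [LinearMap.ker_eq_bot]
    intro a b h
    simpa using h
  obtain ⟨g, hg⟩ := LinearMap.exists_leftInverse_of_injective (Algebra.linearMap ℚ ℝ) hinj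
  refine ⟨g, ?_⟩
  have := LinearMap.congr_fun hg (1 : ℚ)
  simpa using this

/-- A rational-linear map from the reals to the rationals with value `1` at `1`. -/
noncomputable def f : ℝ →ₗ[ℚ] ℚ := Classical.choose exists_ratLinear

lemma f_one : f 1 = 1 := Classical.choose_spec exists_ratLinear

/-- The (discontinuous) character `x ↦ 2 ^ f x`. -/
noncomputable def chi (x : ℝ) : ℝ := (2 : ℝ) ^ ((f x : ℚ) : ℝ)

lemma chi_pos (x : ℝ) : 0 < chi x := Real.rpow_pos_of_pos (by norm_num) _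

lemma chi_zero : chi 0 = 1 := by simp [chi]

lemma chi_add (x y : ℝ) : chi (x + y) = chi x * chi y := by
  unfold chi
  rw [map_add, Rat.cast_add, Real.rpow_add (by norm_num)]

lemma chi_neg (x : ℝ) : chi (-x) = (chi x)⁻¹ := by
  have h := chi_add x (-x)
  rw [add_neg_cancel, chi_zero] at h
  exact eq_inv_of_mul_eq_one_right h.symm

/-- `f` is unbounded on `[0,1]`: every natural number is a value there. -/
lemma exists_large (N : ℕ) : ∃ q : ℝ, 0 ≤ q ∧ q ≤ 1 ∧ f q = N := by
  -- a nonzero element of the kernel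
  obtain ⟨θ, hθ, hθ0⟩ : ∃ θ : ℝ, θ ≠ 0 ∧ f θ = 0 := by
    refine ⟨√2 - ((f √2 : ℚ) : ℝ), ?_, ?_⟩
    · intro h
      have h2 : √2 = ((f √2 : ℚ) : ℝ) := by linarith
      exact (irrational_sqrt_two).ne_rat _ h2
    · have h1 : ((f √2 : ℚ) : ℝ) = (f √2) • (1 : ℝ) := by
        rw [Rat.smul_def, mul_one]
      rw [map_sub]
      have h3 : f ((f √2 : ℚ) : ℝ) = f √2 := by
        conv_lhs => rw [h1]
        rw [map_smul, f_one, smul_eq_mul, mul_one]
      rw [h3, sub_self]
  -- choose a rational `ρ` with `N + ρ θ ∈ (0,1)`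
  have key : ∃ ρ : ℚ, 0 < (N : ℝ) + ρ * θ ∧ (N : ℝ) + ρ * θ < 1 := by
    rcases lt_or_gt_of_ne hθ with h | h
    · have : (1 - N) / θ < (0 - N) / θ := by
        rw [div_lt_div_right_of_neg h]; linarith
      obtain ⟨ρ, h1, h2⟩ := exists_rat_btwn this
      refine ⟨ρ, ?_, ?_⟩
      · rw [lt_div_iff_of_neg h] at h2; linarith
      · rw [div_lt_iff_of_neg h] at h1; linarith
    · have : (0 - N) / θ < (1 - N) / θ := by
        rw [div_lt_div_iff_of_pos_right h]; linarith
      obtain ⟨ρ, h1, h2⟩ := exists_rat_btwn this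
      refine ⟨ρ, ?_, ?_⟩
      · rw [div_lt_iff₀ h] at h1; linarith
      · rw [lt_div_iff₀ h] at h2; linarith
  obtain ⟨ρ, h1, h2⟩ := key
  refine ⟨(N : ℝ) + ρ * θ, h1.le, h2.le, ?_⟩
  have e1 : (N : ℝ) = (N : ℚ) • (1 : ℝ) := by
    rw [Rat.smul_def]; simp
  have e2 : (ρ : ℝ) * θ = ρ • θ := by rw [Rat.smul_def]
  rw [map_add, e2, map_smul, hθ0, smul_zero, add_zero, e1, map_smul, f_one, smul_eq_mul, mul_one]

/-- The underlying space: the plane. -/
def Pl : Type := ℝ × ℝ

/-- The usual topology of the plane. -/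
instance : TopologicalSpace Pl := inferInstanceAs (TopologicalSpace (ℝ × ℝ))

/-- The group operation `(q,n)(q',n') = (q+q', χ(q')⁻¹ n + n')`. -/
noncomputable instance : Group Pl where
  mul a b := (a.1 + b.1, (chi b.1)⁻¹ * a.2 + b.2)
  one := (0, 0)
  inv a := (-a.1, -(chi a.1 * a.2))
  mul_assoc a b c := by
    show ((a.1 + b.1) + c.1, (chi c.1)⁻¹ * ((chi b.1)⁻¹ * a.2 + b.2) + c.2) =
      (a.1 + (b.1 + c.1), (chi (b.1 + c.1))⁻¹ * a.2 + ((chi c.1)⁻¹ * b.2 + c.2))
    rw [chi_add, mul_inv]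
    ext
    · simp only; ring
    · simp only; ring
  one_mul a := by
    show ((0 : ℝ) + a.1, (chi a.1)⁻¹ * 0 + a.2) = a
    ext <;> simp
  mul_one a := by
    show (a.1 + 0, (chi 0)⁻¹ * a.2 + 0) = a
    ext <;> simp [chi_zero]
  inv_mul_cancel a := by
    show (-a.1 + a.1, (chi a.1)⁻¹ * (-(chi a.1 * a.2)) + a.2) = ((0 : ℝ), (0 : ℝ))
    have := (chi_pos a.1).ne'
    ext
    · simp
    · simp only; field_simp; ring

lemma mul_def (a b : Pl) : a * b = ((a.1 + b.1, (chi b.1)⁻¹ * a.2 + b.2) : ℝ × ℝ) := rfl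

lemma cfst : Continuous (fun p : Pl => p.1) := continuous_fst (X := ℝ) (Y := ℝ)
lemma csnd : Continuous (fun p : Pl => p.2) := continuous_snd (X := ℝ) (Y := ℝ)

lemma right_cont (x : Pl) : Continuous (fun g : Pl => g * x) := by
  have h : Continuous (fun g : Pl => ((g.1 + x.1, (chi x.1)⁻¹ * g.2 + x.2) : ℝ × ℝ)) :=
    (cfst.add continuous_const).prodMk ((continuous_const.mul csnd).add continuous_const)
  exact h

/-- The point with given coordinates. -/
def mkP (a b : ℝ) : Pl := ((a, b) : ℝ × ℝ)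

/-- A half-open rectangle. -/
def R (a b c d : ℝ) : Set Pl := {p | p.1 ∈ Ico a b ∧ p.2 ∈ Ico c d}

lemma image_R (g : Pl) (a b c d : ℝ) :
    (fun x : Pl => x * g) '' R a b c d =
      R (a + g.1) (b + g.1) ((chi g.1)⁻¹ * c + g.2) ((chi g.1)⁻¹ * d + g.2) := by
  have hpos : 0 < (chi g.1)⁻¹ := inv_pos.mpr (chi_pos _)
  ext p
  constructor
  · rintro ⟨x, ⟨⟨h1, h2⟩, h3, h4⟩, rfl⟩
    refine ⟨⟨?_, ?_⟩, ?_, ?_⟩
    · show a + g.1 ≤ x.1 + g.1
      linarith
    · show x.1 + g.1 < b + g.1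
      linarith
    · show (chi g.1)⁻¹ * c + g.2 ≤ (chi g.1)⁻¹ * x.2 + g.2
      have := mul_le_mul_of_nonneg_left h3 hpos.le
      linarith
    · show (chi g.1)⁻¹ * x.2 + g.2 < (chi g.1)⁻¹ * d + g.2
      have := mul_lt_mul_of_pos_left h4 hpos
      linarith
  · rintro ⟨⟨h1, h2⟩, h3, h4⟩
    have hc := (chi_pos g.1).ne'
    refine ⟨((p.1 - g.1, chi g.1 * (p.2 - g.2)) : ℝ × ℝ), ⟨⟨?_, ?_⟩, ?_, ?_⟩, ?_⟩
    · show a ≤ p.1 - g.1
      linarith
    · show p.1 - g.1 < b
      linarith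
    · show c ≤ chi g.1 * (p.2 - g.2)
      have h5 : (chi g.1)⁻¹ * c ≤ p.2 - g.2 := by linarith
      have := mul_le_mul_of_nonneg_left h5 (chi_pos g.1).le
      rwa [← mul_assoc, mul_inv_cancel₀ hc, one_mul] at this
    · show chi g.1 * (p.2 - g.2) < d
      have h5 : p.2 - g.2 < (chi g.1)⁻¹ * d := by linarith
      have := mul_lt_mul_of_pos_left h5 (chi_pos g.1)
      rwa [← mul_assoc, mul_inv_cancel₀ hc, one_mul] at this
    · show ((p.1 - g.1 + g.1, (chi g.1)⁻¹ * (chi g.1 * (p.2 - g.2)) + g.2) : ℝ × ℝ) = p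
      ext
      · simp
      · simp only
        rw [← mul_assoc, inv_mul_cancel₀ hc, one_mul, sub_add_cancel]

lemma exists_compact_R : ∃ K : Set Pl, IsCompact K ∧ R 0 2 0 1 ⊆ K := by
  have hc : IsCompact (Icc (0 : ℝ) 2 ×ˢ Icc (0 : ℝ) 1 : Set (ℝ × ℝ)) :=
    isCompact_Icc.prod isCompact_Icc
  refine ⟨_, hc, ?_⟩
  rintro p ⟨⟨h1, h2⟩, h3, h4⟩
  exact ⟨⟨h1, h2.le⟩, h3, h4.le⟩

section measure

variable [MeasurableSpace Pl] [BorelSpace Pl]

lemma meas_R (a b c d : ℝ) : MeasurableSet (R a b c d) :=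
  (cfst.measurable measurableSet_Ico).inter (csnd.measurable measurableSet_Ico)

/-- Every right invariant measure which is finite on compact sets vanishes. -/
lemma eq_zero (μ : Measure Pl) (hfin : IsFiniteMeasureOnCompacts μ)
    (hinv : ∀ (g : Pl) (E : Set Pl), MeasurableSet E → μ ((fun x : Pl => x * g) '' E) = μ E) :
    μ = 0 := by
  have inv : ∀ (q n a b c d : ℝ),
      μ (R (a + q) (b + q) ((chi q)⁻¹ * c + n) ((chi q)⁻¹ * d + n)) = μ (R a b c d) := by
    intro q n a b c d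
    have h := hinv (mkP q n) (R a b c d) (meas_R a b c d)
    rw [image_R] at h
    exact h
  set m := μ (R 0 1 0 1) with hm
  set B := μ (R 0 2 0 1) with hB
  have hBfin : B ≠ ⊤ := by
    obtain ⟨K, hK, hsub⟩ := exists_compact_R
    have hlt : μ K < ⊤ := hfin.lt_top_of_isCompact hK
    exact ((measure_mono hsub).trans_lt hlt).ne
  have hmB : ∀ N : ℕ, ((2 ^ N : ℕ) : ENNReal) * m ≤ B := by
    intro N
    obtain ⟨q, hq0, hq1, hfq⟩ := exists_large N
    have hchi : chi q = 2 ^ N := by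
      unfold chi
      rw [hfq]
      simp
    set s : ℝ := ((2 : ℝ) ^ N)⁻¹ with hs
    have hspos : 0 < s := by positivity
    have hs1 : (2 : ℝ) ^ N * s = 1 := mul_inv_cancel₀ (by positivity)
    have h1 : ∀ j : ℕ, μ (R q (q + 1) (j * s) (j * s + s)) = m := by
      intro j
      have := inv q (j * s) 0 1 0 1
      rw [hchi] at this
      rw [hm, ← this]
      congr 2 <;> ring
    have hdisj : Pairwise (Function.onFun Disjoint
        (fun j : Fin (2 ^ N) => R q (q + 1) ((j : ℕ) * s) ((j : ℕ) * s + s))) := by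
      intro i j hij
      refine Set.disjoint_left.mpr ?_
      rintro p ⟨_, h3, h4⟩ ⟨_, h5, h6⟩
      have hij' : (i : ℕ) ≠ j := fun h => hij (Fin.ext h)
      rcases lt_or_gt_of_ne hij' with h | h
      · have h7 : ((i : ℕ) : ℝ) + 1 ≤ (j : ℕ) := by exact_mod_cast h
        have h8 := mul_le_mul_of_nonneg_right h7 hspos.le
        linarith
      · have h7 : ((j : ℕ) : ℝ) + 1 ≤ (i : ℕ) := by exact_mod_cast h
        have h8 := mul_le_mul_of_nonneg_right h7 hspos.le
        linarith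
    have hsum : μ (⋃ j : Fin (2 ^ N), R q (q + 1) ((j : ℕ) * s) ((j : ℕ) * s + s)) =
        ((2 ^ N : ℕ) : ENNReal) * m := by
      rw [measure_iUnion hdisj (fun j => meas_R _ _ _ _), tsum_fintype]
      simp only [h1]
      simp
    rw [← hsum]
    refine measure_mono ?_
    intro p hp
    simp only [mem_iUnion] at hp
    obtain ⟨j, ⟨h3, h4⟩, h5, h6⟩ := hp
    have hj : ((j : ℕ) : ℝ) + 1 ≤ (2 : ℝ) ^ N := by
      have := j.2
      exact_mod_cast this
    have h8 := mul_le_mul_of_nonneg_right hj hspos.le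
    have h9 : (0 : ℝ) ≤ (j : ℕ) * s := by positivity
    refine ⟨⟨?_, ?_⟩, ?_, ?_⟩
    · linarith
    · linarith
    · linarith
    · linarith
  have hm0 : m = 0 := by
    by_contra hne
    have hlt : B / m < ⊤ := ENNReal.div_lt_top hBfin hne
    obtain ⟨N, hN⟩ := ENNReal.exists_nat_gt hlt.ne
    have h1 := hmB N
    have hmt : m ≠ ⊤ := by
      intro ht
      have := hmB 0
      rw [ht] at this
      simp at this
      exact hBfin this
    have h2 : ((2 ^ N : ℕ) : ENNReal) ≤ B / m := by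
      rw [ENNReal.le_div_iff_mul_le (Or.inl hne) (Or.inl hmt)]
      exact h1
    have h3 : (N : ENNReal) ≤ ((2 ^ N : ℕ) : ENNReal) := by
      exact_mod_cast (Nat.lt_two_pow_self).le
    exact absurd (lt_of_le_of_lt (h3.trans h2) hN) (lt_irrefl _)
  -- the strip `0 ≤ q < 1` is null
  set S : Set Pl := {p | p.1 ∈ Ico (0 : ℝ) 1} with hS
  have hSm : MeasurableSet S := cfst.measurable measurableSet_Ico
  have hS0 : μ S = 0 := by
    have hcov : S ⊆ ⋃ l : ℤ, R 0 1 l (l + 1) := by
      intro p hp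
      simp only [mem_iUnion]
      exact ⟨⌊p.2⌋, hp, Int.floor_le _, Int.lt_floor_add_one _⟩
    refine measure_mono_null hcov ?_
    rw [measure_iUnion_null_iff]
    intro l
    have := inv 0 l 0 1 0 1
    rw [chi_zero] at this
    rw [← hm0, hm, ← this]
    congr 2 <;> ring
  have huniv : μ univ = 0 := by
    have hcov : (univ : Set Pl) ⊆ ⋃ k : ℤ, (fun x : Pl => x * mkP k 0) '' S := by
      intro p _
      simp only [mem_iUnion]
      refine ⟨⌊p.1⌋, p * (mkP ((⌊p.1⌋ : ℤ) : ℝ) 0)⁻¹, ?_, ?_⟩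
      · show p.1 + -((⌊p.1⌋ : ℤ) : ℝ) ∈ Ico (0 : ℝ) 1
        have h1 := Int.floor_le p.1
        have h2 := Int.lt_floor_add_one p.1
        constructor <;> linarith
      · exact inv_mul_cancel_right p _
    refine measure_mono_null hcov ?_
    rw [measure_iUnion_null_iff]
    intro k
    rw [hinv _ S hSm, hS0]
  exact Measure.measure_univ_eq_zero.mp huniv

end measure

/-- **A metrizable locally compact right topological group without Haar measure.**
There is a group `G` with a topology, homeomorphic to the plane (so metrizable and locally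
compact), all of whose right translations are continuous, such that the zero measure is the only
right-invariant Borel measure on `G` that is finite on compact sets.  In particular `G` has no
right Haar measure. -/
theorem result :
    ∃ (G : Type) (_ : Group G) (_ : TopologicalSpace G),
      TopologicalSpace.MetrizableSpace G ∧ LocallyCompactSpace G ∧ Nonempty (G ≃ₜ ℝ × ℝ) ∧
      (∀ x : G, Continuous fun g : G => g * x) ∧
      ∀ [MeasurableSpace G] [BorelSpace G] (μ : Measure G),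
        (∀ K : Set G, IsCompact K → μ K < ⊤) →
        (∀ (g : G) (E : Set G), MeasurableSet E → μ ((fun x : G => x * g) '' E) = μ E) →
        μ = 0 := by
  refine ⟨Pl, inferInstance, inferInstance, ?_, ?_, ?_, right_cont, ?_⟩
  · exact inferInstanceAs (TopologicalSpace.MetrizableSpace (ℝ × ℝ))
  · exact inferInstanceAs (LocallyCompactSpace (ℝ × ℝ))
  · exact ⟨Homeomorph.refl (ℝ × ℝ)⟩
  · intro _ _ μ hfin hinv
    exact eq_zero μ ⟨fun K hK => hfin K hK⟩ hinv

end Pool.Agent.Results.MP_d698c5_an.PlaneNoHaar
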